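import Pool.Agent.helper17.MK.All
import Pool.Agent.helper17.AT.CLQ
import Pool.Agent.helper17.AT.PRT
import Pool.Agent.helper22.AT.QM
import Pool.Agent.helper22.AT.THG
import Pool.Agent.helper27.AT.FMG
import Pool.Agent.helper31.AT.STG
import Pool.Agent.helper53.AT.THP
import Pool.Agent.helper61.AT.CRG
import Pool.Agent.helper61.AT.KSB
import Pool.Agent.helper64.AT.KCO
import Pool.Agent.helper68.AT.BXA
import Pool.Agent.helper68.AT.BXF
import Pool.Agent.helper68.AT.COI
import Pool.Agent.helper71.AT.MM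
import Pool.Agent.helper72.AT.PSY
import Pool.Agent.helper84.AT.THM
import Pool.Agent.helper89.AT.MDG
import Pool.Agent.helper5.AT.BXP
import Pool.Agent.helper5.AT.QP
import Pool.Agent.helper5.AT.THC
import Pool.Agent.helper52.AT.ADV

/-!
# Project AT (MP_bf63dc_nt): assembly
-/

set_option autoImplicit false

namespace Pool.Agent.AT

theorem FM_all (k : ℕ) (hk : 1 ≤ k) : FMk k := FMG (STG Pool.Agent.MK.PB_all MDG CRG) k hk

theorem BOX_all (k : ℕ) (hk : 1 ≤ k) : BOXk k := BXP k hk (BXF BXA k hk (FM_all k hk))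

theorem Q_all (k : ℕ) (hk : 1 ≤ k) : Qk k := QM KSB COI k hk (BOX_all k hk)

theorem QPc_all : QPc := QP COI PRT (Q_all 4 (by norm_num))

theorem KCO_all (k : ℕ) (hk : 1 ≤ k) : KCOk k := KCO k hk (BOX_all k hk)

theorem CLQ_all (k : ℕ) (hk : 1 ≤ k) : CLQk k := CLQ PRT k hk (Q_all k hk)

theorem THP_all : THP_stmt := THP MM PSY ADV

theorem THG_all : THG_stmt := THG THM THC

end Pool.Agent.AT
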