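import Pool.Agent.helper17.MK.Spec
import Pool.Agent.helper85.FC.CaseDefs

/-!
# Project AT (MP_bf63dc_nt, rows `bq:*`): almost all tuples of linear forms

GOAL. Let `k ≥ 1`. BOX THEOREM (BXP): if `H_1, ..., H_k` are sets of at least `K = K(k)` linear forms `s n + h` (`s ≥ 1`) such that all
tuples in `H_1 × ... × H_k` are admissible and have different entries, then for some tuple `f` in the box more than
`(1/4 + 1/500000) k` of the numbers `f_i(n)` are prime simultaneously for infinitely many `n`. THEOREM Q (QM): there are `C, δ > 0` such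
that for all finite sets `F_1, ..., F_k` of forms, each with at least `L` elements, all but `C |F_1| ... |F_k| L^(-δ)` of the admissible
tuples `f ∈ F_1 × ... × F_k` have this property. Consequences: THF: every interval of length `M ≥ M₀(ε)` contains at least
`(1/6 - ε) M` integers `c` such that `p - q = c` for infinitely many pairs of primes: a third of all even numbers. KCO: `k` coefficients
`a_i` and any set `H` of at least `K(k)` shifts. CLQ: any `k` different coefficients contain more than `k/4` coefficients all of whose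
pairs are solvable for a positive proportion of the `c`.

IDEA. (1) In `k` clusters of linear forms more than `(1/4 + 1/500000) k` clusters contain primes simultaneously: the proof of project MK,
where there are four clusters and two of them are hit. (2) If too many tuples in `F_1 × ... × F_k` are bad then a residue class modulo the
product `W` of the small primes contains a box `H_1 × ... × H_k` of bad tuples with `|H_i| = K` (theorem of Kovari, Sos, Turan and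
Erdos); the forms in all `H_i` together are admissible, since modulo small primes they look like one admissible tuple. (1) gives a
contradiction.

RULES. Row `XX`: file `Pool/Agent/<seat>/AT/XX.lean`, `import Pool.Agent.helper38.AT.Spec`, `namespace Pool.Agent.AT`,
`theorem XX (hYY : YY_stmt) ... : XX_stmt` (drop hypotheses you do not need), auxiliary lemmas prefixed `XX_`. No `convert`, no `congr!`,
no `native_decide`, no straight double quotes; `open Classical in` only before definitions.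
-/

set_option autoImplicit false

namespace Pool.Agent.AT

open Finset Real Pool.Agent.helper39.MT Pool.Agent.helper85.FC Pool.Agent.MK

/-! ## Definitions -/

/-- the value at `n` of the linear form `s n + h`, `f = (s, h)`, as a natural number -/
def ev (f : ℕ × ℤ) (n : ℕ) : ℕ := ((f.1 : ℤ) * n + f.2).toNat

/-- the linear forms `f i` are admissible: no prime divides the product of their values at all `n` -/
def Adm {k : ℕ} (f : Fin k → ℕ × ℤ) : Prop :=
  ∀ p : ℕ, p.Prime → ∃ n : ℕ, ∀ i, ¬ (p : ℤ) ∣ ((f i).1 : ℤ) * n + (f i).2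

/-- the number of the forms with a prime value at `n` -/
def hits {k : ℕ} (f : Fin k → ℕ × ℤ) (n : ℕ) : ℕ := #{i : Fin k | (ev (f i) n).Prime}

/-- for infinitely many `n` more than `(1/4 + 1/500000) k` of the `k` forms have prime values -/
def Many {k : ℕ} (f : Fin k → ℕ × ℤ) : Prop := ∀ N : ℕ, ∃ n ≥ N, (1 / 4 + 1 / 500000 : ℝ) * k < hits f n

/-- `p - q = c` for infinitely many pairs of primes -/
def Dif (c : ℤ) : Prop := {pq : ℕ × ℕ | pq.1.Prime ∧ pq.2.Prime ∧ (pq.1 : ℤ) - pq.2 = c}.Infinite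

/-! ## Part A: more than `(1/4 + 1/500000) k` primes in `k` clusters -/

/-- **MDG** (short, a copy). `MD` of Pool/Agent/helper37/MK/MD.lean with the additional conclusion `T ≤ kc`: in the proof take `J` larger
than `max (2560 T C₁² / ε²) T`; `kc = 2 ^ (J + 1) ≥ J`. Import Pool.Agent.helper37.MK.MD and use its lemmas `MD_num2`, `MD_num3`, `MD_L`. -/
def MDG_stmt : Prop := ∀ T ε : ℝ, 0 < ε → ε ≤ 1 / 100 → ∃ kc D₀ : ℕ, 1 ≤ kc ∧ T ≤ kc ∧
  4 * (4 * kc) + 4 ≤ D₀ ∧ ∀ W : ℕ, 0 < W → (∀ p : ℕ, p.Prime → p ≤ D₀ → p ∣ W) →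
  ∃ a₀ : ℝ, ∀ a : ℝ, a₀ ≤ a → ∀ R : ℕ, R = ⌊Real.exp (a / 4)⌋₊ →
  ∃ (y : (PS W R → Option (Fin (4 * kc))) → ℝ) (E₀ E₁ : ℝ),
    (∀ σ, |y σ| ≤ 1) ∧
    (∀ σ, y σ ≠ 0 → (dd (prP W R) σ : ℝ) ≤ Real.exp (ε * a)) ∧
    1 ≤ E₀ ∧ 1 / 2 ≤ E₁ ∧
    Ex (fun p : PS W R => mu0 (p : ℝ)) (fun e => FF (prP W R) y e ^ 2) ≤ E₀ ∧
    (∀ m, E₁ ≤ Ex (fun p : PS W R => mu1 m (p : ℝ)) (fun e => FF (prP W R) y e ^ 2)) ∧
    T * a * ((Nat.totient W : ℝ) / W) * E₀ ≤ kc * E₁ ∧
    ∀ m m' : Fin (4 * kc), m ≠ m' → ∃ ζ : (PS W R → Option (Fin (4 * kc))) → ℝ,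
      (∀ σ, |ζ σ| ≤ a ^ 3) ∧
      (∀ σ, ζ σ ≠ 0 → (dd (prP W R) σ : ℝ) ≤ Real.exp (ε * a) ∧ ∀ p, σ p ≠ some m ∧ σ p ≠ some m') ∧
      (∀ e : PS W R → Option (Fin (4 * kc)), (∀ p, e p ≠ some m ∧ e p ≠ some m') →
        FF (prP W R) ζ e = FF (prP W R) y e) ∧
      E₀ * QF (prP W R) ζ ≤ (1 + 4 * ε) * E₁ ^ 2

open Classical in
/-- **CRG** (the core; short-medium, a copy). `CR_core` of Pool/Agent/helper61/MK/CR.lean (use its `CR_arith`), with `k` clusters (the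
fibres of `κ`, of any size) instead of four clusters of `kc` forms, at most `(1/4 + 1/500000) k` of them hit for every `n`. For a cluster
`j` with `r = #{i | κ i = j}` elements let `U_j(n) = ∑_(κ i = j) lm i n`, `X_j = ∑ v U_j`, `Y_j = ∑ v U_j²`, `s_j = ∑_(U_j(n) ≠ 0) v n`,
`P = r t`: `X_j ≥ (1 - 10⁻⁵) P`, `Y_j ≤ (1 + 10⁻⁵) a X_j + (4 - 1/4000) P²/G`, `X_j² ≤ s_j Y_j`, so `s_j ≥ (1 + 2/10⁵)/4 G` (`CR_arith`).
Sum over the `k` clusters: `k (1 + 2/10⁵)/4 G ≤ ∑ s_j ≤ (1/4 + 1/500000) k ∑ v ≤ (1/4 + 1/500000) (1 + 10⁻⁵) k G`, and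
`0.250005 > 0.2500045...`. -/
def CRG_stmt : Prop := ∀ (kc k : ℕ) (κ : Fin (4 * kc) → Fin k) (I : Finset ℕ) (v : ℕ → ℝ) (lm : Fin (4 * kc) → ℕ → ℝ)
  (a G t : ℝ), 1 ≤ k → 0 < a → 0 < G → 0 < t → (∀ n ∈ I, 0 ≤ v n) → (∀ i n, 0 ≤ lm i n) →
  ∑ n ∈ I, v n ≤ (1 + 1 / 10 ^ 5) * G → (∀ i, (1 - 1 / 10 ^ 5) * t ≤ ∑ n ∈ I, v n * lm i n) →
  (∀ i, ∀ n ∈ I, v n ≠ 0 → lm i n ≤ (1 + 1 / 10 ^ 5) * a) →
  (∀ i i', i ≠ i' → ∑ n ∈ I, v n * (lm i n * lm i' n) ≤ (4 - 1 / 4000) * t ^ 2 / G) →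
  (∀ j : Fin k, 10 ^ 5 * a * G ≤ (#{i | κ i = j} : ℝ) * t) →
  (∀ n ∈ I, v n ≠ 0 → (#{j : Fin k | ∃ i, κ i = j ∧ lm i n ≠ 0} : ℝ) ≤ (1 / 4 + 1 / 500000) * k) → False

open Classical in
/-- **STG** (medium, a copy). From PB, MDG, CRG: `ST` of Pool/Agent/helper31/MK/ST.lean, with MDG for `T = k 10⁵`, `ε = 10⁻⁷`; the
hypothesis of CRG on the cluster sizes: `k 10⁵ a G ≤ kc t ≤ k #{i | κ i = j} t`. The exact line:
`theorem STG (h1 : PB_stmt) (h2 : MDG_stmt) (h3 : CRG_stmt) : STG_stmt`. -/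
def STG_stmt : Prop := ∀ k : ℕ, 1 ≤ k → ∃ kc D₀ : ℕ, 1 ≤ kc ∧ k ≤ kc ∧ ∀ κ : Fin (4 * kc) → Fin k,
  (∀ j : Fin k, kc ≤ k * #{i | κ i = j}) → ∀ (A B : Fin (4 * kc) → ℕ) (W : ℕ), Std (4 * kc) D₀ A B W →
  ∀ N : ℕ, ∃ n ≥ N, (1 / 4 + 1 / 500000 : ℝ) * k < #{j : Fin k | ∃ i, κ i = j ∧ (A i * n + B i).Prime}

/-- the theorem for `k` clusters of `K` linear forms -/
def FMk (k : ℕ) : Prop := ∃ K : ℕ, 1 ≤ K ∧ ∀ (A : Fin k × Fin K → ℕ) (B : Fin k × Fin K → ℤ),
  (∀ x, 0 < A x) → (∀ x y, x ≠ y → (A x : ℤ) * B y ≠ A y * B x) →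
  (∀ p : ℕ, p.Prime → ∃ n : ℕ, ∀ x, ¬ (p : ℤ) ∣ A x * n + B x) →
  ∀ N : ℕ, ∃ n ≥ N, (1 / 4 + 1 / 500000 : ℝ) * k < #{j : Fin k | ∃ x : Fin K, ((A (j, x) : ℤ) * n + B (j, x)).toNat.Prime}

/-- **FMG** (short-medium, a copy). From STG: `FM` of Pool/Agent/helper2/MK/FM.lean. `K = 4 kc`; `κ i = i mod k`, the form number `i` is the
form `(i mod k, i / k)` (injective); the fibre of `j` contains `j + k x` for `x < ⌊4 kc/k⌋`, and `k ⌊4 kc/k⌋ ≥ 4 kc - k ≥ kc`. The forms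
`(i mod k, i / k)`, `i < 4 kc`, are as in the hypotheses, and a form with a prime value hits the cluster `κ i`. -/
def FMG_stmt : Prop := ∀ k : ℕ, 1 ≤ k → FMk k

/-! ## Part B: the combinatorial part -/

/-- **KSB** (BOX LEMMA, the theorem of Kovari, Sos, Turan and Erdos for `k`-partite sets, unequal sizes; medium; pure Mathlib; file
without other imports than the Spec). Induction on `k`. `k = 0`: `C = δ = 1`. Step: let `C', δ'` be the constants for `k`,
`δ = δ'/(K + 1)`, `C ≥ 2 K` large. Write `E ⊆ X_0 × Y` (`Fin.cons`), `N = #(X_0) ≥ L`, `#E = D #Y` with `D ≥ C N L^(-δ) ≥ 2 K`. As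
`d(y) = #{x | (x, y) ∈ E} ≤ N`, at least `#Y D/(2N)` of the `y ∈ Y` have `d(y) ≥ D/2`; each of them gives at least `(D/(2K))^K` sets
`S ⊆ X_0` with `#S = K` and `S × {y} ⊆ E` (`(d choose K) ≥ (d/K)^K` for `d ≥ K`). There are at most `N^K` sets `S`, so for one of
them the set `E_S = {y | S × {y} ⊆ E}` has at least `#Y D/(2N) (D/(2KN))^K ≥ #Y (C/2) (C/(2K))^K L^(-δ(K+1))` elements, which
is more than `C' #Y L^(-δ')` for large `C`. Apply the induction hypothesis to `E_S`. -/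
def KSB_stmt : Prop := ∀ K k : ℕ, 1 ≤ K → ∃ C δ : ℝ, 0 < C ∧ 0 < δ ∧ δ ≤ 1 ∧ ∀ (α : Type) (X : Fin k → Finset α) (L : ℕ),
  1 ≤ L → (∀ i, L ≤ #(X i)) → ∀ E ⊆ Fintype.piFinset X, C * (∏ i, (#(X i) : ℝ)) * (L : ℝ) ^ (-δ) < #E →
  ∃ H : Fin k → Finset α, (∀ i, H i ⊆ X i ∧ #(H i) = K) ∧ Fintype.piFinset H ⊆ E

/-- **BXA** (short-medium). The forms of a box of admissible tuples, with fixed residues modulo the primes `≤ k K`, are admissible together.
For a prime `p` with `p ∣ W`: take one tuple `g` in the box (`K ≥ 1`) and `n` with `p ∤ g_i(n)` for all `i`; all `f ∈ H i` are `= g_i` modulo `p`.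
Otherwise `p > k K`: for `f ∈ H i` with `p ∤ f.1` one class of `n` modulo `p` is bad; if `p ∣ f.1` then `p ∤ f.2` (`f` occurs in an
admissible tuple) and no class is bad. At most `k K < p` classes are bad. -/
def BXA_stmt : Prop := ∀ (k K W : ℕ) (H : Fin k → Finset (ℕ × ℤ)), 1 ≤ K → (∀ i, #(H i) = K) →
  (∀ p : ℕ, p.Prime → p ≤ k * K → p ∣ W) →
  (∀ i, ∀ f ∈ H i, ∀ g ∈ H i, (W : ℤ) ∣ (f.1 : ℤ) - g.1 ∧ (W : ℤ) ∣ f.2 - g.2) →
  (∀ f ∈ Fintype.piFinset H, Adm f) → ∀ p : ℕ, p.Prime → ∃ n : ℕ, ∀ i, ∀ f ∈ H i, ¬ (p : ℤ) ∣ (f.1 : ℤ) * n + f.2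

/-- the box theorem for `k` sets of `K` forms -/
def BXk (k : ℕ) : Prop := ∃ K : ℕ, 1 ≤ K ∧ ∀ (W : ℕ) (H : Fin k → Finset (ℕ × ℤ)), (∀ i, #(H i) = K) →
  (∀ p : ℕ, p.Prime → p ≤ k * K → p ∣ W) →
  (∀ i, ∀ f ∈ H i, ∀ g ∈ H i, (W : ℤ) ∣ (f.1 : ℤ) - g.1 ∧ (W : ℤ) ∣ f.2 - g.2) →
  (∀ i, ∀ f ∈ H i, 0 < f.1) → (∀ f ∈ Fintype.piFinset H, Adm f) → (∀ f ∈ Fintype.piFinset H, Function.Injective f) →
  ∃ f ∈ Fintype.piFinset H, Many f

/-- **BXF** (short-medium). From BXA. `K` from `FMk k`. Enumerate `H i` (`Finset.equivFinOfCardEq`). Two different forms are not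
proportional: `s h' = s' h` with `gcd(s, h) = gcd(s', h') = 1` (both forms occur in admissible tuples, `K ≥ 1`) gives `s = s'`, `h = h'`; the
forms in `H i` are different, and `f ∈ H i`, `g ∈ H j`, `i ≠ j`, are different by hypothesis. For every `N` there is `n ≥ N` with more than
`(1/4 + 1/500000) k` clusters hit; choose a form with a prime value in each hit cluster and any form in the others: a tuple `f` in the box
with `hits f n` as required. The box is finite: one `f` works for arbitrarily large `n`. -/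
def BXF_stmt : Prop := ∀ k : ℕ, 1 ≤ k → FMk k → BXk k

/-- THE BOX THEOREM -/
def BOXk (k : ℕ) : Prop := ∃ K : ℕ, ∀ H : Fin k → Finset (ℕ × ℤ), (∀ i, K ≤ #(H i)) → (∀ i, ∀ f ∈ H i, 0 < f.1) →
  (∀ f ∈ Fintype.piFinset H, Adm f ∧ Function.Injective f) → ∃ f ∈ Fintype.piFinset H, Many f

/-- **BXP** (short). `W = ∏` of the primes `≤ k K`, `K' = K W²`: a set of at least `K'` forms contains `K` forms with the same residues
of `f.1` and `f.2` modulo `W` (pigeonhole, `Finset.exists_lt_card_fiber_of_mul_lt_card_of_maps_to` or the `≤` version); apply `BXk`. -/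
def BXP_stmt : Prop := ∀ k : ℕ, 1 ≤ k → BXk k → BOXk k

open Classical in
/-- **COI** (short; pure Mathlib). The tuples with two equal entries: for `i ≠ j` the number of `f` in the product with `f i = f j` is at most
`∏ #(F i) / L` (such an `f` is determined by its entries different from the `i`-th). -/
def COI_stmt : Prop := ∀ (k L : ℕ) (F : Fin k → Finset (ℕ × ℤ)), 1 ≤ L → (∀ i, L ≤ #(F i)) →
  (#{f ∈ Fintype.piFinset F | ¬ Function.Injective f} : ℝ) ≤ (k : ℝ) ^ 2 * (∏ i, (#(F i) : ℝ)) / L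

open Classical in
/-- THEOREM Q: almost all tuples of `k` forms have `Many` -/
def Qk (k : ℕ) : Prop := ∃ C δ : ℝ, 0 < C ∧ 0 < δ ∧ δ ≤ 1 ∧ ∀ (F : Fin k → Finset (ℕ × ℤ)) (L : ℕ), 1 ≤ L →
  (∀ i, L ≤ #(F i)) → (∀ i, ∀ f ∈ F i, 0 < f.1) →
  (#{f ∈ Fintype.piFinset F | Adm f ∧ ¬ Many f} : ℝ) ≤ C * (∏ i, (#(F i) : ℝ)) * (L : ℝ) ^ (-δ)

/-- **QM** (THEOREM Q; short). From KSB, COI. `K` from `BOXk k` (make it `≥ 1`), `C', δ` from KSB for `K`, `k`, `C = C' + k²`. Let `B` be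
the set in `Qk` and `B'` its injective elements. By COI `#B ≤ #B' + k² ∏ / L` and `L⁻¹ ≤ L^(-δ)`. If `#B' > C' ∏ L^(-δ)` then KSB gives a
box inside `B'`, and `BOXk` a tuple in it with `Many`: contradiction. -/
def QM_stmt : Prop := ∀ k : ℕ, 1 ≤ k → BOXk k → Qk k

/-- `k` coefficients: for different positive integers `a_1, ..., a_k` and every set `H` of at least `K` integers prime to all `a_i` there
are a set `I` of more than `(1/4 + 1/500000) k` indices and `h_i ∈ H` such that for infinitely many `N` all the equations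
`a_i (p_i - h_i) = N`, `i ∈ I`, have a solution in a prime `p_i` -/
def KCOk (k : ℕ) : Prop := ∃ K : ℕ, ∀ a : Fin k → ℕ, (∀ i, 0 < a i) → Function.Injective a → ∀ H : Finset ℤ, K ≤ #H →
  (∀ h ∈ H, ∀ i, IsCoprime h (a i : ℤ)) → ∃ (I : Finset (Fin k)) (h : Fin k → ℤ), (1 / 4 + 1 / 500000 : ℝ) * k < #I ∧
  (∀ i, h i ∈ H) ∧ ∀ B : ℕ, ∃ N : ℤ, (B : ℤ) ≤ N ∧ ∀ i ∈ I, ∃ p : ℕ, p.Prime ∧ (a i : ℤ) * ((p : ℤ) - h i) = N

/-- **KCO** (short-medium). Let `P = ∏` of the primes `≤ k`, `K = K_BOX P`. Choose `H' ⊆ H` with at least `K_BOX` elements, all in one class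
`h_0` modulo `P`, and `A = ∏ a_i` (or the least common multiple), `H_i = {(A/a_i, h) : h ∈ H'}`. Better take `A = lcm`, so that a prime
`p ∣ A` divides some `a_j`, and for `p ∤ A` all `A/a_i` are prime to `p`. All tuples are admissible: `p ≤ k`: `n = 0` if `p ∤ h_0`, and `n = 1` if
`p ∣ h_0` (then `p` divides no `a_i`, so `p ∤ A`); `p > k`: for each of the `k` forms at most one class of `n` is bad (if
`p ∣ A/a_i` then `p ∣ A`, so `p ∤ h`). They have different entries: the slopes `A/a_i` are different. `BOXk` gives `h_i ∈ H'` with `Many`;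
as there are finitely many `I`, one `I` occurs for infinitely many `n` (all `ev (f i) n`, `i ∈ I`, prime, so `(A/a_i) n + h_i > 0`);
`N = A n`, `p_i = (A/a_i) n + h_i`. (`A = ∏ a_i` works as well.) -/
def KCO_stmt : Prop := ∀ k : ℕ, 1 ≤ k → BOXk k → KCOk k

/-! ## Part C: quadruples and Q1, and a third of all even numbers

`TrueCase a b c` is defined in `Pool.Agent.helper85.FC.CaseDefs` (the conditions of Q1 on `a, b, c`, and infinitely many solutions). -/

/-- the pair of forms `f`, `g` gives a true case of Q1: with `d = gcd(f.1, g.1)`,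
`(g.1/d) p - (f.1/d) q = (g.1 f.2 - f.1 g.2)/d` has infinitely many solutions in primes -/
def Pair (f g : ℕ × ℤ) : Prop :=
  TrueCase (g.1 / Nat.gcd f.1 g.1) (f.1 / Nat.gcd f.1 g.1) (((g.1 : ℤ) * f.2 - f.1 * g.2) / Nat.gcd f.1 g.1)

/-- **PRT** (short-medium). If `f`, `g` are different, admissible together and simultaneously prime infinitely often then `Pair f g`. With
`d = gcd(s, t)`, `s = f.1`, `t = g.1`, `a = t/d`, `b = s/d`, `c = (t f.2 - s g.2)/d`: `a (s n + f.2) - b (t n + g.2) = c`, injective in `n`.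
`c ≠ 0` since the forms are different and `gcd(s, f.2) = gcd(t, g.2) = 1`. If a prime `l` divides `a` and `c` then `l ∣ b g.2`, so
`l ∣ g.2` and `l ∣ t`: contradiction to admissibility at `l`; the same for `b`. If `a`, `b`, `c` are odd: for even `d` the forms have
`f.2`, `g.2` odd and `c = a f.2 - b g.2` is even; for odd `d`, `s` and `t` are odd and `f.2 + g.2` is odd, so at `p = 2` one of the
two values is even for every `n`: contradiction. -/
def PRT_stmt : Prop := ∀ f g : ℕ × ℤ, 0 < f.1 → 0 < g.1 → f ≠ g → Adm ![f, g] →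
  (∀ N : ℕ, ∃ n ≥ N, (ev f n).Prime ∧ (ev g n).Prime) → Pair f g

open Classical in
/-- almost all quadruples contain a true case of Q1 -/
def QPc : Prop := ∃ C δ : ℝ, 0 < C ∧ 0 < δ ∧ δ ≤ 1 ∧ ∀ (F : Fin 4 → Finset (ℕ × ℤ)) (L : ℕ), 1 ≤ L → (∀ i, L ≤ #(F i)) →
  (∀ i, ∀ f ∈ F i, 0 < f.1) →
  (#{f ∈ Fintype.piFinset F | Adm f ∧ ∀ i j, i ≠ j → ¬ Pair (f i) (f j)} : ℝ) ≤ C * (∏ i, (#(F i) : ℝ)) * (L : ℝ) ^ (-δ)

/-- **QP** (short-medium). From COI, PRT. If `f` is injective, admissible and `Many f` then infinitely often at least two of the four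
forms are prime (`(1/4 + 1/500000) 4 > 1`), so (finitely many pairs) some pair `i ≠ j` infinitely often, and `Pair (f i) (f j)` by PRT (a
subtuple of an admissible tuple is admissible). The other tuples are counted by `Qk 4` and COI (`L⁻¹ ≤ L^(-δ)`). -/
def QP_stmt : Prop := Qk 4 → QPc

open Classical in
/-- the clique: of `k` different coefficients more than `(1/4 + 1/500000) k` have all their pairs solvable for a positive upper proportion
of the `c`, at the same scales `X` -/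
def CLQk (k : ℕ) : Prop := ∀ s : Fin k → ℕ, (∀ i, 0 < s i) → Function.Injective s → ∃ (I : Finset (Fin k)) (δ : ℝ), 0 < δ ∧
  (1 / 4 + 1 / 500000 : ℝ) * k < #I ∧ ∀ X₀ : ℕ, ∃ X : ℕ, X₀ ≤ X ∧ ∀ i ∈ I, ∀ j ∈ I, i ≠ j →
    δ * X ≤ #{c ∈ Icc (-(X : ℤ)) X | TrueCase (s j / Nat.gcd (s i) (s j)) (s i / Nat.gcd (s i) (s j)) c}

/-- **CLQ** (short-medium). From PRT. `P = ∏ (s i) ∏` of the primes `≤ k`, `F_i = {(s_i, 1 + P x) : 1 ≤ x ≤ M}`, `L = M`. All tuples are
admissible (`p ∣ P`: `n = 0`; otherwise `p > k` and at most `k` classes of `n` are bad) and have different slopes. By `Qk` at least half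
of the `M^k` tuples have `Many` for large `M`. Such a tuple has a set `I` of more than `(1/4 + 1/500000) k` indices with
`ev (f i) n` prime for all `i ∈ I`, for infinitely many `n`. Some `I_M` belongs to at least `M^k / 2^(k+1)` tuples, some `I` is `I_M` for
infinitely many `M`. Let `i ≠ j` in `I`: at least `M²/2^(k+1)` pairs `(x_i, x_j)` occur, and each gives by PRT (a pair of an admissible
tuple is admissible) `TrueCase (s_j/g) (s_i/g) c`, `c = (s_j (1 + P x_i) - s_i (1 + P x_j))/g`; each `c` belongs to at most `M` pairs; so at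
least `M/2^(k+1)` values `c`, `|c| ≤ X = (∑ s_i) (1 + P M)`. -/
def CLQ_stmt : Prop := ∀ k : ℕ, 1 ≤ k → Qk k → CLQk k

/-- **THA** (short). Four forms `n + h_i` with `h_1, h_2` divisible by 6 and `h_3, h_4` congruent to 4 modulo 6 are admissible. `p = 2`: all `h_i` are
even, `n = 1`. `p = 3`: the `h_i` are `0` or `1` modulo 3, `n = 1`. `p ≥ 5`: at most four classes of `n` are bad. -/
def THA_stmt : Prop := ∀ h : Fin 4 → ℤ, (6 : ℤ) ∣ h 0 → (6 : ℤ) ∣ h 1 → (6 : ℤ) ∣ h 2 - 4 → (6 : ℤ) ∣ h 3 - 4 →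
  Adm (fun i => ((1 : ℕ), h i))

open Classical in
/-- **THC** (counting; medium; elementary). `T` is a symmetric set of integers; four intervals `(u_j, u_j + M_j]` with at most
`(1/6 - ε) M_j` even elements of `T` each, and growing. Let `cnt_r(I)` be the number of `c ∈ I` with `T c` and `c = r` modulo 6; so
`cnt_0 + cnt_2 + cnt_4 ≤ (1/6 - ε) M_j` for the given intervals.
For `j = 2, 3` let `I_j` be the interval `(u_j, u_j + M_j]` if it has `cnt_4 ≤ cnt_2`, and its negative `[-u_j - M_j, -u_j)` otherwise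
(which is `(u'_j, u'_j + M_j]` with `u'_j = -u_j - M_j - 1`; its `cnt_4` is the old `cnt_2`). Choose in this order:
`h_0 ∈ I_0` with `6 ∣ h_0` (at least `M_0/6 - 1 ≥ M_0/12`); `h_1 ∈ I_1`, `6 ∣ h_1`, `¬ T (h_1 - h_0)`: at least
`M_1/6 - 1 - (cnt_0 + |h_0|) ≥ ε M_1/2`; `h_2 ∈ I_2`, `h_2 = 4` mod 6, `¬ T(h_2 - h_0)`, `¬ T(h_2 - h_1)`: at least
`M_2/6 - 1 - 2 cnt_4 - |h_0| - |h_1| ≥ ε M_2/2`, as `2 cnt_4 ≤ cnt_2 + cnt_4 ≤ (1/6 - ε) M_2`; `h_3 ∈ I_3`, `h_3 = 4` mod 6, not `T` of the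
differences to `h_0, h_1` (class 4) and to `h_2` (class 0): at least `M_3/6 - 1 - cnt_0 - 2 cnt_4 - |h_0| - |h_1| - |h_2| ≥ ε M_3/2`. (The
number of `c ∈ I - h` with a property exceeds the number of `c ∈ I` with it by at most `|h|`; `|h_i| ≤ |u_i| + M_i`.) -/
def THC_stmt : Prop := ∀ (T : ℤ → Prop) (ε : ℝ) (u : Fin 4 → ℤ) (M : Fin 4 → ℕ), (∀ c, T (-c) ↔ T c) → 0 < ε → ε ≤ 1 / 6 →
  24 ≤ ε * M 0 → (∀ i j : Fin 4, i < j → 24 * (|u i| + M i + 1 : ℝ) ≤ ε * M j) →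
  (∀ j, (#{c ∈ Ioc (u j) (u j + M j) | T c ∧ (2 : ℤ) ∣ c} : ℝ) ≤ (1 / 6 - ε) * M j) →
  ∃ u' : Fin 4 → ℤ, (ε / 2) ^ 3 / 12 * ∏ j, (M j : ℝ) ≤
    #{h ∈ Fintype.piFinset (fun j => Ioc (u' j) (u' j + M j)) | ((6 : ℤ) ∣ h 0 ∧ (6 : ℤ) ∣ h 1 ∧ (6 : ℤ) ∣ h 2 - 4 ∧ (6 : ℤ) ∣ h 3 - 4) ∧
      ∀ i j, i < j → ¬ T (h j - h i)}

open Classical in
/-- **THF** (short-medium; the top). From THA, THC. `T c = (c ≠ 0 ∧ Dif c)`; symmetric; `Dif c` implies that `c` is even, but this is not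
needed. If the statement fails for `ε` (`≤ 1/6` without loss) there are arbitrarily long intervals with fewer than `(1/6 - ε) M` such
`c`; choose four of them, growing as in THC, `M_0` large in terms of `ε` and of the `C, δ` of `QPc`. THC gives at least
`(ε/2)³/12 ∏ M_j` tuples `h`; the tuples of forms `n + h_j` are in the product of the sets `{1} × (u'_j, u'_j + M_j]`, admissible (THA),
and no pair of them is `Pair` (`Pair (1, x) (1, y)` means `TrueCase 1 1 (x - y)`, which implies `x - y ≠ 0` and `Dif (x - y)`). So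
`(ε/2)³/12 ∏ M_j ≤ C ∏ M_j M_0^(-δ)`, `M_0 = min M_j`: contradiction for large `M_0`. -/
def THF_stmt : Prop := QPc → ∀ ε : ℝ, 0 < ε → ∃ M₀ : ℕ, ∀ M : ℕ, M₀ ≤ M → ∀ u : ℤ,
  (1 / 6 - ε) * M ≤ #{c ∈ Ioc u (u + M) | c ≠ 0 ∧ Dif c}

end Pool.Agent.AT
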