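import Pool.Agent.helper38.AT.All
import Pool.Agent.helper7.AL.SpecE
import Pool.Agent.helper8.AL.LDD
import Pool.Agent.helper24.AL.LJI
import Pool.Agent.helper24.AL.LQT
import Pool.Agent.helper34.AL.LJA
import Pool.Agent.helper53.AL.LPG
import Pool.Agent.helper64.AL.DUE
import Pool.Agent.helper72.AL.LCD
import Pool.Agent.helper78.AL.LEE
import Pool.Agent.helper78.AL.LEI
import Pool.Agent.helper78.AL.LJD
import Pool.Agent.helper80.AL.LHZ

/-!
# The duality (MP_bf63dc_nt): assembly
-/

set_option autoImplicit false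

namespace Pool.Agent.LD

open Pool.Agent.AT

theorem LDD_all : LDD_stmt := LDD BOX_all PRT LPG LHZ LJA LJI LJD LCD

theorem LEE_all : LEE_stmt := LEE BOX_all LPG LHZ LJA LEI LJD

theorem DUE_all : DUE_stmt := DUE LEE_all

theorem LQT_all : LQT_stmt := LQT KSB COI

end Pool.Agent.LD
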